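import Pool.Agent.H5.HullRatio

set_option autoImplicit false

namespace Pool.Agent.Results.MP_ee40c7_co.Counter

open Pool.Agent.H5.HullRatioDefs

theorem result (N : ℕ) : ∃ n ≥ N, ∃ S : Finset (ℝ × ℝ), S.card = n ∧
    ¬ Collinear ℝ (S : Set (ℝ × ℝ)) ∧
    bigT 4 S / smallT 4 S < bigT 4 (Sn n) / smallT 4 (Sn n) :=
  H5.HullRatio.main N

end Pool.Agent.Results.MP_ee40c7_co.Counter
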